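import Mathlib
import Pool.Agent.H964.LF.Stm

set_option autoImplicit false

namespace Pool.Agent.H767.LF

open Pool.Agent.H964.LF
open MeasureTheory Filter
open scoped ENNReal

/-- union bound -/
theorem vl_union {d n : ℕ} (t : ℝ) :
    vl (0 : Tor d n) {ψ | t < (⨆ x, ψ x) - ψ 0} ≤
      ∑ v : Tor d n, vl (0 : Tor d n) {ψ | t ≤ ψ v - ψ 0} := by
  unfold vl
  refine le_trans (measure_mono ?_) (measure_biUnion_finset_le Finset.univ
    (fun v : Tor d n => {ψ : Tor d n → ℝ | Lip ψ ∧ |ψ 0| ≤ 1 / 2 ∧ ψ ∈ {ψ | t ≤ ψ v - ψ 0}}))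
  rintro ψ ⟨h1, h2, h3⟩
  have h4 : t + ψ 0 < ⨆ x, ψ x := by
    have h5 : t < (⨆ x, ψ x) - ψ 0 := h3
    linarith
  obtain ⟨v, hv⟩ := exists_lt_of_lt_ciSup h4
  refine Set.mem_iUnion₂.mpr ⟨v, Finset.mem_univ v, h1, h2, ?_⟩
  show t ≤ ψ v - ψ 0
  linarith

theorem card_tor (d n : ℕ) : (Finset.univ : Finset (Tor d n)).card = (2 * n + 2) ^ d := by
  rw [Finset.card_univ, Fintype.card_pi]
  simp [ZMod.card]

theorem t_UPP : S_TAIL → S_PIN → S_UPP := by
  intro hT hP d hd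
  obtain ⟨c, C0, n0, hc, hC0, H⟩ := hT d hd
  have hd0 : d ≠ 0 := by omega
  have hdr : (0 : ℝ) < d := by exact_mod_cast (by omega : 0 < d)
  obtain ⟨C, hC⟩ : ∃ C : ℝ, C = (((d : ℝ) + 1) / c) ^ ((1 : ℝ) / d) := ⟨_, rfl⟩
  have hCpos : 0 < C := by
    rw [hC]
    exact Real.rpow_pos_of_pos (by positivity) _
  have hCd : c * C ^ d = d + 1 := by
    rw [hC, one_div, Real.rpow_inv_natCast_pow (by positivity) hd0]
    field_simp
  refine ⟨C, hCpos, ?_⟩
  have hlim : Tendsto (fun n : ℕ => (2 : ℝ) ^ d / ((n : ℝ) + 1)) atTop (nhds 0) :=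
    tendsto_const_nhds.div_atTop
      (tendsto_atTop_add_const_right _ _ tendsto_natCast_atTop_atTop)
  have hlog : Tendsto (fun n : ℕ => C * Real.log ((n : ℝ) + 1) ^ ((1 : ℝ) / d)) atTop atTop := by
    refine Tendsto.const_mul_atTop hCpos ?_
    refine (tendsto_rpow_atTop (by positivity)).comp ?_
    exact Real.tendsto_log_atTop.comp
      (tendsto_atTop_add_const_right _ _ tendsto_natCast_atTop_atTop)
  refine squeeze_zero' (Eventually.of_forall fun n => ?_) ?_ hlim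
  · positivity
  · filter_upwards [eventually_ge_atTop n0, hlog.eventually_ge_atTop C0] with n hn htn
    obtain ⟨t, ht⟩ : ∃ t : ℝ, t = C * Real.log ((n : ℝ) + 1) ^ ((1 : ℝ) / d) := ⟨_, rfl⟩
    rw [← ht] at htn ⊢
    have hn1 : (0 : ℝ) < (n : ℝ) + 1 := by positivity
    have hlog0 : 0 ≤ Real.log ((n : ℝ) + 1) := Real.log_nonneg (by
      have : (0 : ℝ) ≤ n := Nat.cast_nonneg n
      linarith)
    have htd : c * t ^ d = ((d : ℝ) + 1) * Real.log ((n : ℝ) + 1) := by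
      rw [ht, mul_pow, one_div, Real.rpow_inv_natCast_pow hlog0 hd0, ← mul_assoc, hCd]
    have hexp : Real.exp (-(c * t ^ d)) = (((n : ℝ) + 1) ^ (d + 1))⁻¹ := by
      rw [htd, Real.exp_neg]
      congr 1
      have h1 : ((d : ℝ) + 1) * Real.log ((n : ℝ) + 1) =
          ((d + 1 : ℕ) : ℝ) * Real.log ((n : ℝ) + 1) := by push_cast; ring
      rw [h1, Real.exp_nat_mul, Real.exp_log hn1]
    obtain ⟨V, hV⟩ : ∃ V : ℝ≥0∞, V = vl (0 : Tor d n) Set.univ := ⟨_, rfl⟩
    have hV0 : V ≠ 0 := by rw [hV]; exact ((hP d n).2 0).1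
    have hVt : V ≠ ⊤ := by rw [hV]; exact ((hP d n).2 0).2
    have hVpos : 0 < V.toReal := ENNReal.toReal_pos hV0 hVt
    rw [← hV]
    have h1 : vl (0 : Tor d n) {ψ | t < (⨆ x, ψ x) - ψ 0} ≤
        ENNReal.ofReal (((2 * n + 2 : ℕ) : ℝ) ^ d * Real.exp (-(c * t ^ d))) * V := by
      refine (vl_union t).trans ?_
      calc ∑ v : Tor d n, vl (0 : Tor d n) {ψ | t ≤ ψ v - ψ 0}
          ≤ ∑ _v : Tor d n, ENNReal.ofReal (Real.exp (-(c * t ^ d))) * V :=
            Finset.sum_le_sum fun v _ => by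
              rw [hV]
              exact H n hn v t htn
        _ = ENNReal.ofReal (((2 * n + 2 : ℕ) : ℝ) ^ d * Real.exp (-(c * t ^ d))) * V := by
            rw [Finset.sum_const, card_tor, nsmul_eq_mul, ← mul_assoc,
              ENNReal.ofReal_mul (by positivity)]
            congr 2
            rw [← Nat.cast_pow, ENNReal.ofReal_natCast]
    have h2 := ENNReal.toReal_mono (ENNReal.mul_ne_top ENNReal.ofReal_ne_top hVt) h1
    rw [ENNReal.toReal_mul, ENNReal.toReal_ofReal (by positivity)] at h2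
    rw [div_le_iff₀ hVpos]
    refine h2.trans (le_of_eq ?_)
    rw [hexp]
    push_cast
    have h3 : (2 * (n : ℝ) + 2) = 2 * ((n : ℝ) + 1) := by ring
    rw [h3, mul_pow, pow_succ]
    field_simp

end Pool.Agent.H767.LF
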